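import Mathlib
import Pool.Agent.H505R3.ANS.Main

set_option autoImplicit false

namespace Pool.Agent.Results.MP_8c22a7_lc.PolynomialValueSets

open Polynomial Pool.Agent.H505R3.ANS

/-- **Polynomial value sets in abstract numeration systems.**  Let `A` be a finite totally ordered
alphabet, `S` an abstract numeration system over `A` (an infinite regular language ordered
genealogically) and `P ∈ ℚ[X]` a polynomial of degree at least two with `P(ℕ) ⊆ ℕ`.  If the set
`P(ℕ)` is `S`-recognisable, then the numeration language is polynomial: its number of words of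
length `n` is `O(n ^ k)` for some `k`. -/
theorem result {A : Type*} [Fintype A] [LinearOrder A] (S : NumSystem A) (P : ℚ[X])
    (hP : ∀ n : ℕ, ∃ x : ℕ, P.eval (n : ℚ) = (x : ℚ)) (hdeg : 2 ≤ P.natDegree)
    (hrec : S.Recognisable {x : ℕ | ∃ n : ℕ, P.eval (n : ℚ) = (x : ℚ)}) :
    IsPolynomialLanguage S.lang :=
  main S P hP hdeg hrec

end Pool.Agent.Results.MP_8c22a7_lc.PolynomialValueSets
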